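import Mathlib
import Pool.Agent.Lib_helper37.Mac.Defs

/-!
# Block B7: rounding one block by a uniformly random permutation
-/

set_option autoImplicit false

namespace Pool.Agent.LibHelper36.Mac

open Finset

/-- first moment of a uniformly random rearrangement -/
theorem perm_sum_one {n : ℕ} (x : Fin n → ℝ) (k : Fin n) :
    (n : ℝ) * ∑ σ : Equiv.Perm (Fin n), x (σ k) = (Nat.factorial n : ℝ) * ∑ i, x i := by
  have hsym : ∀ k' : Fin n, ∑ σ : Equiv.Perm (Fin n), x (σ k') =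
      ∑ σ : Equiv.Perm (Fin n), x (σ k) := by
    intro k'
    rw [← Equiv.sum_comp (Equiv.mulRight (Equiv.swap k k')) (fun σ => x (σ k))]
    refine Finset.sum_congr rfl fun σ _ => ?_
    simp
  have h1 : ∑ k' : Fin n, ∑ σ : Equiv.Perm (Fin n), x (σ k') =
      (n : ℝ) * ∑ σ : Equiv.Perm (Fin n), x (σ k) := by
    rw [Finset.sum_congr rfl fun k' _ => hsym k']
    simp
  rw [← h1, Finset.sum_comm]
  have h2 : ∀ σ : Equiv.Perm (Fin n), ∑ k' : Fin n, x (σ k') = ∑ i, x i := fun σ =>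
    Equiv.sum_comp σ x
  rw [Finset.sum_congr rfl fun σ _ => h2 σ]
  simp [Fintype.card_perm]

/-- second moment of a uniformly random rearrangement -/
theorem perm_sum_two {n : ℕ} (x : Fin n → ℝ) (k l : Fin n) (hkl : k ≠ l) :
    (n : ℝ) * ((n : ℝ) - 1) * ∑ σ : Equiv.Perm (Fin n), x (σ k) * x (σ l) =
      (Nat.factorial n : ℝ) * ((∑ i, x i) ^ 2 - ∑ i, x i ^ 2) := by
  have hsym : ∀ k' l' : Fin n, k' ≠ l' →
      ∑ σ : Equiv.Perm (Fin n), x (σ k') * x (σ l') =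
        ∑ σ : Equiv.Perm (Fin n), x (σ k) * x (σ l) := by
    intro k' l' h'
    obtain ⟨τ, hτ1, hτ2⟩ : ∃ τ : Equiv.Perm (Fin n), τ k = k' ∧ τ l = l' := by
      refine ⟨Equiv.swap (Equiv.swap k k' l) l' * Equiv.swap k k', ?_, ?_⟩
      · rw [Equiv.Perm.mul_apply, Equiv.swap_apply_left]
        refine Equiv.swap_apply_of_ne_of_ne ?_ h'
        intro h
        have := congrArg (Equiv.swap k k') h
        simp at this
        exact hkl this
      · rw [Equiv.Perm.mul_apply, Equiv.swap_apply_left]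
    rw [← Equiv.sum_comp (Equiv.mulRight τ) (fun σ => x (σ k) * x (σ l))]
    refine Finset.sum_congr rfl fun σ _ => ?_
    simp [hτ1, hτ2]
  have h1 : ∑ k' : Fin n, ∑ l' : Fin n, ∑ σ : Equiv.Perm (Fin n), x (σ k') * x (σ l') =
      (Nat.factorial n : ℝ) * (∑ i, x i) ^ 2 := by
    have h2 : ∀ σ : Equiv.Perm (Fin n), ∑ k' : Fin n, ∑ l' : Fin n, x (σ k') * x (σ l') =
        (∑ i, x i) ^ 2 := by
      intro σ
      rw [sq, ← Equiv.sum_comp σ x, Finset.sum_mul_sum]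
    calc ∑ k' : Fin n, ∑ l' : Fin n, ∑ σ : Equiv.Perm (Fin n), x (σ k') * x (σ l')
        = ∑ k' : Fin n, ∑ σ : Equiv.Perm (Fin n), ∑ l' : Fin n, x (σ k') * x (σ l') :=
          Finset.sum_congr rfl fun _ _ => Finset.sum_comm
      _ = ∑ σ : Equiv.Perm (Fin n), ∑ k' : Fin n, ∑ l' : Fin n, x (σ k') * x (σ l') :=
          Finset.sum_comm
      _ = _ := by
          rw [Finset.sum_congr rfl fun σ _ => h2 σ]
          simp [Fintype.card_perm]
  have h3 : ∑ k' : Fin n, ∑ σ : Equiv.Perm (Fin n), x (σ k') * x (σ k') =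
      (Nat.factorial n : ℝ) * ∑ i, x i ^ 2 := by
    rw [Finset.sum_comm]
    have h2 : ∀ σ : Equiv.Perm (Fin n), ∑ k' : Fin n, x (σ k') * x (σ k') = ∑ i, x i ^ 2 := by
      intro σ
      rw [← Equiv.sum_comp σ (fun i => x i ^ 2)]
      exact Finset.sum_congr rfl fun _ _ => (sq _).symm
    rw [Finset.sum_congr rfl fun σ _ => h2 σ]
    simp [Fintype.card_perm]
  set G := ∑ σ : Equiv.Perm (Fin n), x (σ k) * x (σ l) with hG
  have h4 : ∀ k' : Fin n, ∑ l' : Fin n, ∑ σ : Equiv.Perm (Fin n), x (σ k') * x (σ l') =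
      ∑ σ : Equiv.Perm (Fin n), x (σ k') * x (σ k') + ((n : ℝ) - 1) * G := by
    intro k'
    rw [← Finset.add_sum_erase Finset.univ _ (Finset.mem_univ k')]
    congr 1
    rw [Finset.sum_congr rfl (g := fun _ => G) (fun l' hl' => ?_)]
    · rw [Finset.sum_const, Finset.card_erase_of_mem (Finset.mem_univ k'), Finset.card_univ,
        Fintype.card_fin, nsmul_eq_mul]
      have hn : 1 ≤ n := Nat.one_le_of_lt k.2
      rw [Nat.cast_sub hn]
      simp
    · exact hsym k' l' (Finset.ne_of_mem_erase hl').symm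
  rw [Finset.sum_congr rfl fun k' _ => h4 k', Finset.sum_add_distrib, h3] at h1
  simp only [Finset.sum_const, Finset.card_univ, Fintype.card_fin, nsmul_eq_mul] at h1
  linarith [h1]

/-- the pattern `+1` on the first `q` positions, `-1` afterwards -/
noncomputable def pat (n q : ℕ) (i : Fin n) : ℝ := if (i : ℕ) < q then 1 else -1

theorem pat_sq (n q : ℕ) (i : Fin n) : pat n q i ^ 2 = 1 := by
  unfold pat; split_ifs <;> norm_num

theorem sum_pat (n q : ℕ) (hq : q ≤ n) : ∑ i, pat n q i = 2 * q - n := by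
  unfold pat
  rw [Fin.sum_univ_eq_sum_range (fun i => if i < q then (1 : ℝ) else -1) n]
  obtain ⟨m, rfl⟩ := Nat.exists_eq_add_of_le hq
  rw [Finset.sum_range_add]
  rw [Finset.sum_congr rfl (g := fun _ => (1 : ℝ)) (fun i hi => by
    simp [Finset.mem_range.1 hi])]
  rw [Finset.sum_congr (s₁ := range m) rfl (g := fun _ => (-1 : ℝ)) (fun i _ => by
    simp)]
  simp
  ring

theorem round_block_proof (ℓ : ℕ) (hℓ : 2 ≤ ℓ) (Y : ℝ) (hY : |Y| ≤ 1) :
    ∃ (Ω : Type) (_ : Fintype Ω) (q : Ω → ℝ) (z : Ω → ℕ → ℝ), (∀ ω, 0 ≤ q ω) ∧ ∑ ω, q ω = 1 ∧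
      (∀ ω k, z ω k = 1 ∨ z ω k = -1) ∧ (∀ k < ℓ, ∑ ω, q ω * z ω k = Y) ∧
      ∀ k < ℓ, ∀ l < ℓ, k ≠ l →
        ∑ ω, q ω * (z ω k * z ω l) ≤ Y ^ 2 * ℓ / (ℓ - 1) - 1 / ℓ := by
  obtain ⟨hY1, hY2⟩ := abs_le.1 hY
  have hℓR : (2 : ℝ) ≤ ℓ := by exact_mod_cast hℓ
  set y : ℝ := ℓ * (1 + Y) / 2 with hy
  have hy0 : 0 ≤ y := by rw [hy]; have : 0 ≤ 1 + Y := by linarith
                         positivity
  have hyℓ : y ≤ ℓ := by rw [hy]; nlinarith
  set q0 : ℕ := ⌊y⌋₊ with hq0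
  set lam : ℝ := y - q0 with hlam
  have hl0 : 0 ≤ lam := by rw [hlam]; linarith [Nat.floor_le hy0]
  have hl1 : lam ≤ 1 := by rw [hlam]; linarith [Nat.lt_floor_add_one y]
  have hq0ℓ : q0 ≤ ℓ := by
    have : (q0 : ℝ) ≤ ℓ := (Nat.floor_le hy0).trans hyℓ
    exact_mod_cast this
  have hq1ℓ : lam ≠ 0 → q0 + 1 ≤ ℓ := by
    intro h
    have h1 : (q0 : ℝ) < ℓ := by
      have : 0 < lam := lt_of_le_of_ne hl0 (Ne.symm h)
      rw [hlam] at this
      linarith
    exact_mod_cast h1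
  have hfac : (0 : ℝ) < (Nat.factorial ℓ : ℝ) := by exact_mod_cast Nat.factorial_pos ℓ
  -- the number of `+1`s
  let qq : Bool → ℕ := fun b => if b then q0 + 1 else q0
  let ww : Bool → ℝ := fun b => if b then lam else 1 - lam
  have hww : ∀ b, 0 ≤ ww b := by
    intro b
    cases b
    · simp only [ww]; simpa using hl1
    · simp only [ww]; simpa using hl0
  -- moments for fixed number of plus ones
  have hS1 : ∀ b, ww b * ∑ i, pat ℓ (qq b) i = ww b * (2 * (qq b : ℝ) - ℓ) := by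
    intro b
    cases b
    · simp only [ww, qq]; rw [sum_pat _ _ (by simpa using hq0ℓ)]
    · by_cases h : lam = 0
      · simp [ww, h]
      · simp only [ww, qq]; rw [sum_pat _ _ (by simpa using hq1ℓ h)]
  have hS2 : ∀ b, ww b * (∑ i, pat ℓ (qq b) i) ^ 2 = ww b * (2 * (qq b : ℝ) - ℓ) ^ 2 := by
    intro b
    cases b
    · simp only [ww, qq]; rw [sum_pat _ _ (by simpa using hq0ℓ)]
    · by_cases h : lam = 0
      · simp [ww, h]
      · simp only [ww, qq]; rw [sum_pat _ _ (by simpa using hq1ℓ h)]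
  refine ⟨Bool × Equiv.Perm (Fin ℓ), inferInstance, fun ω => ww ω.1 / (Nat.factorial ℓ : ℝ),
    fun ω k => if h : k < ℓ then pat ℓ (qq ω.1) (ω.2 ⟨k, h⟩) else 1, ?_, ?_, ?_, ?_, ?_⟩
  · intro ω
    exact div_nonneg (hww _) hfac.le
  · rw [Fintype.sum_prod_type]
    simp only [Finset.sum_const, Finset.card_univ, Fintype.card_perm, Fintype.card_fin,
      nsmul_eq_mul, Fintype.sum_bool]
    simp only [ww]
    field_simp
    simp
  · intro ω k
    by_cases h : k < ℓ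
    · simp only [h, dite_true]
      unfold pat
      split_ifs <;> simp
    · simp [h]
  · intro k hk
    simp only [hk, dite_true]
    rw [Fintype.sum_prod_type]
    have h1 : ∀ b : Bool, ∑ σ : Equiv.Perm (Fin ℓ),
        ww b / (Nat.factorial ℓ : ℝ) * pat ℓ (qq b) (σ ⟨k, hk⟩) =
        ww b * (2 * (qq b : ℝ) - ℓ) / ℓ := by
      intro b
      rw [← Finset.mul_sum]
      have h2 := perm_sum_one (pat ℓ (qq b)) ⟨k, hk⟩
      have h3 : ∑ σ : Equiv.Perm (Fin ℓ), pat ℓ (qq b) (σ ⟨k, hk⟩) =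
          (Nat.factorial ℓ : ℝ) * (∑ i, pat ℓ (qq b) i) / ℓ := by
        rw [eq_div_iff (by positivity), ← h2]; ring
      rw [h3, ← hS1 b]
      field_simp
    rw [Finset.sum_congr rfl fun b _ => h1 b, Fintype.sum_bool]
    simp only [ww, qq]
    simp only [if_true, Bool.false_eq_true, if_false, Nat.cast_add, Nat.cast_one]
    have hlam' : (q0 : ℝ) = ℓ * (1 + Y) / 2 - lam := by rw [hlam, hy]; ring
    rw [hlam']
    field_simp
    ring
  · intro k hk l hl hkl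
    simp only [hk, hl, dite_true]
    rw [Fintype.sum_prod_type]
    have hne : (⟨k, hk⟩ : Fin ℓ) ≠ ⟨l, hl⟩ := by
      intro h
      exact hkl (by simpa using h)
    have h1 : ∀ b : Bool, ∑ σ : Equiv.Perm (Fin ℓ),
        ww b / (Nat.factorial ℓ : ℝ) *
          (pat ℓ (qq b) (σ ⟨k, hk⟩) * pat ℓ (qq b) (σ ⟨l, hl⟩)) =
        ww b * ((2 * (qq b : ℝ) - ℓ) ^ 2 - ℓ) / (ℓ * (ℓ - 1)) := by
      intro b
      rw [← Finset.mul_sum]
      have h2 := perm_sum_two (pat ℓ (qq b)) ⟨k, hk⟩ ⟨l, hl⟩ hne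
      have h5 : ∑ i : Fin ℓ, pat ℓ (qq b) i ^ 2 = ℓ := by
        rw [Finset.sum_congr rfl fun i _ => pat_sq ℓ (qq b) i]
        simp
      rw [h5] at h2
      have hpos : (0 : ℝ) < ℓ * (ℓ - 1) := by
        have : (0 : ℝ) < ℓ - 1 := by linarith
        positivity
      have h3 : ∑ σ : Equiv.Perm (Fin ℓ),
          pat ℓ (qq b) (σ ⟨k, hk⟩) * pat ℓ (qq b) (σ ⟨l, hl⟩) =
          (Nat.factorial ℓ : ℝ) * ((∑ i, pat ℓ (qq b) i) ^ 2 - ℓ) / (ℓ * (ℓ - 1)) := by
        rw [eq_div_iff hpos.ne', ← h2]; ring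
      rw [h3]
      have h4 : ww b * ((2 * (qq b : ℝ) - ℓ) ^ 2 - ℓ) =
          ww b * ((∑ i, pat ℓ (qq b) i) ^ 2 - ℓ) := by
        rw [mul_sub, mul_sub, hS2 b]
      rw [h4]
      field_simp
    rw [Finset.sum_congr rfl fun b _ => h1 b, Fintype.sum_bool]
    simp only [ww, qq]
    simp only [if_true, Bool.false_eq_true, if_false, Nat.cast_add, Nat.cast_one]
    have hlam' : (q0 : ℝ) = ℓ * (1 + Y) / 2 - lam := by rw [hlam, hy]; ring
    rw [hlam']
    have hpos1 : (0 : ℝ) < ℓ - 1 := by linarith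
    have hpos0 : (0 : ℝ) < ℓ := by linarith
    have hpos : (0 : ℝ) < ℓ * (ℓ - 1) := by positivity
    rw [← add_div]
    have hR : Y ^ 2 * ℓ / (ℓ - 1) - 1 / ℓ = (ℓ ^ 2 * Y ^ 2 - (ℓ - 1)) / (ℓ * (ℓ - 1)) := by
      field_simp
    rw [hR]
    apply div_le_div_of_nonneg_right _ hpos.le
    nlinarith [sq_nonneg (2 * lam - 1)]

end Pool.Agent.LibHelper36.Mac
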