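import Mathlib
import Pool.Agent.Lib_helper36.Mac.B7

/-!
# Block B8a: rounding all blocks (successive derandomisation with B7)
-/

set_option autoImplicit false

namespace Pool.Agent.LibHelper36.Mac

open Finset

theorem round_all_proof {V : Type} [Fintype V] (w : V → V → ℝ) (hw : ∀ u v, 0 ≤ w u v) (T : ℕ)
    (ℓ : ℕ → ℕ) (hℓ : ∀ b < T, 2 ≤ ℓ b) (B k : V → ℕ) (hB : ∀ v, B v < T)
    (hk : ∀ v, k v < ℓ (B v)) (hne : ∀ u v, w u v ≠ 0 → B u = B v → k u ≠ k v)
    (Y : ℕ → ℝ) (hY : ∀ b < T, |Y b| ≤ 1) :
    ∃ s : V → ℝ, (∀ v, s v = 1 ∨ s v = -1) ∧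
      ∑ u, ∑ v, w u v * (if B u = B v then 1 + 1 / ℓ (B u) - Y (B u) ^ 2 * ℓ (B u) / (ℓ (B u) - 1)
        else (1 + Y (B u)) * (1 - Y (B v))) ≤ ∑ u, ∑ v, w u v * ((1 + s u) * (1 - s v)) := by
  set c : ℕ → ℝ := fun b => 1 + 1 / ℓ b - Y b ^ 2 * ℓ b / (ℓ b - 1) with hc
  -- the objective after the blocks `< t` have been rounded
  let term : ℕ → (ℕ → ℕ → ℝ) → V → V → ℝ := fun t y u v =>
    if B u = B v then (if B u < t then (1 + y (B u) (k u)) * (1 - y (B v) (k v)) else c (B u))
      else (1 + y (B u) (k u)) * (1 - y (B v) (k v))
  let Φ : ℕ → (ℕ → ℕ → ℝ) → ℝ := fun t y => ∑ u, ∑ v, w u v * term t y u v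
  have key : ∀ t ≤ T, ∃ y : ℕ → ℕ → ℝ, (∀ b < t, ∀ j, y b j = 1 ∨ y b j = -1) ∧
      (∀ b, t ≤ b → ∀ j, y b j = Y b) ∧
      Φ 0 (fun b _ => Y b) ≤ Φ t y := by
    intro t
    induction t with
    | zero =>
      intro _
      exact ⟨fun b _ => Y b, by simp, by simp, le_rfl⟩
    | succ t ih =>
      intro ht
      have htT : t < T := ht
      obtain ⟨y, hy1, hy2, hy3⟩ := ih htT.le
      obtain ⟨Ω, _, q, z, hq0, hq1, hz, hz1, hz2⟩ :=
        round_block_proof (ℓ t) (hℓ t htT) (Y t) (hY t htT)
      -- the average of the new objective is at least the old one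
      have havg : Φ t y ≤ ∑ ω, q ω * Φ (t + 1) (Function.update y t (z ω)) := by
        have hsw : ∑ ω, q ω * Φ (t + 1) (Function.update y t (z ω)) =
            ∑ u, ∑ v, ∑ ω, q ω * (w u v * term (t + 1) (Function.update y t (z ω)) u v) := by
          simp only [Φ, Finset.mul_sum]
          rw [Finset.sum_comm]
          exact Finset.sum_congr rfl fun u _ => Finset.sum_comm
        rw [hsw]
        refine Finset.sum_le_sum fun u _ => Finset.sum_le_sum fun v _ => ?_
        by_cases hw0 : w u v = 0
        · simp [hw0]
        have hpull : ∑ ω, q ω * (w u v * term (t + 1) (Function.update y t (z ω)) u v) =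
            w u v * ∑ ω, q ω * term (t + 1) (Function.update y t (z ω)) u v := by
          rw [Finset.mul_sum]
          exact Finset.sum_congr rfl fun _ _ => by ring
        rw [hpull]
        refine mul_le_mul_of_nonneg_left ?_ (hw u v)
        have hconst : ∀ C : ℝ, ∑ ω, q ω * C = C := by
          intro C
          rw [← Finset.sum_mul, hq1, one_mul]
        by_cases hBuv : B u = B v
        · by_cases hlt : B u < t
          · have h1 : B u ≠ t := hlt.ne
            have h2 : B v ≠ t := by rw [← hBuv]; exact h1
            have h3 : B u < t + 1 := by omega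
            simp only [term, hBuv, if_true]
            rw [hBuv] at hlt h3
            simp only [hlt, h3, if_true, Function.update_of_ne h2]
            rw [hconst]
          · by_cases heq : B u = t
            · have hv : B v = t := by rw [← hBuv]; exact heq
              have h3 : B v < t + 1 := by omega
              have h4 : ¬ B v < t := by omega
              simp only [term, hBuv, if_true, h3, h4, if_false]
              simp only [hv, Function.update_self]
              have hku : k u < ℓ t := by have := hk u; rwa [heq] at this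
              have hkv : k v < ℓ t := by have := hk v; rwa [hv] at this
              have hkne := hne u v hw0 hBuv
              have e1 : ∑ ω, q ω * ((1 + z ω (k u)) * (1 - z ω (k v))) =
                  ∑ ω, q ω + ∑ ω, q ω * z ω (k u) - ∑ ω, q ω * z ω (k v) -
                    ∑ ω, q ω * (z ω (k u) * z ω (k v)) := by
                rw [← Finset.sum_add_distrib, ← Finset.sum_sub_distrib, ← Finset.sum_sub_distrib]
                exact Finset.sum_congr rfl fun _ _ => by ring
              rw [e1, hq1, hz1 _ hku, hz1 _ hkv]
              have := hz2 _ hku _ hkv hkne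
              simp only [hc]
              linarith
            · have h3 : ¬ B u < t + 1 := by omega
              simp only [term, hBuv, if_true]
              rw [hBuv] at hlt h3
              simp only [hlt, h3, if_false]
              rw [hconst]
        · simp only [term, hBuv, if_false]
          by_cases hu : B u = t
          · have hv : B v ≠ t := fun h => hBuv (hu.trans h.symm)
            simp only [hu, Function.update_self, Function.update_of_ne hv]
            have hku : k u < ℓ t := by have := hk u; rwa [hu] at this
            have e1 : ∑ ω, q ω * ((1 + z ω (k u)) * (1 - y (B v) (k v))) =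
                (∑ ω, q ω + ∑ ω, q ω * z ω (k u)) * (1 - y (B v) (k v)) := by
              rw [← Finset.sum_add_distrib, Finset.sum_mul]
              exact Finset.sum_congr rfl fun _ _ => by ring
            rw [e1, hq1, hz1 _ hku, hy2 t le_rfl]
          · by_cases hv : B v = t
            · simp only [hv, Function.update_self, Function.update_of_ne hu]
              have hkv : k v < ℓ t := by have := hk v; rwa [hv] at this
              have e1 : ∑ ω, q ω * ((1 + y (B u) (k u)) * (1 - z ω (k v))) =
                  (1 + y (B u) (k u)) * (∑ ω, q ω - ∑ ω, q ω * z ω (k v)) := by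
                rw [← Finset.sum_sub_distrib, Finset.mul_sum]
                exact Finset.sum_congr rfl fun _ _ => by ring
              rw [e1, hq1, hz1 _ hkv, hy2 t le_rfl]
            · simp only [Function.update_of_ne hu, Function.update_of_ne hv]
              rw [hconst]
      -- so some outcome is at least as good as the average
      obtain ⟨ω, hω⟩ : ∃ ω, Φ t y ≤ Φ (t + 1) (Function.update y t (z ω)) := by
        by_contra hcon
        push Not at hcon
        obtain ⟨ω₀, hω₀⟩ : ∃ ω, 0 < q ω := by
          by_contra h
          push Not at h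
          have : ∑ ω, q ω ≤ 0 := Finset.sum_nonpos fun ω _ => h ω
          linarith
        have : ∑ ω, q ω * Φ (t + 1) (Function.update y t (z ω)) < ∑ ω, q ω * Φ t y :=
          Finset.sum_lt_sum (fun ω _ => mul_le_mul_of_nonneg_left (hcon ω).le (hq0 ω))
            ⟨ω₀, Finset.mem_univ _, mul_lt_mul_of_pos_left (hcon ω₀) hω₀⟩
        rw [← Finset.sum_mul, hq1, one_mul] at this
        linarith
      refine ⟨Function.update y t (z ω), ?_, ?_, hy3.trans hω⟩
      · intro b hb j
        by_cases hbt : b = t
        · subst hbt
          simpa using hz ω j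
        · rw [Function.update_of_ne hbt]
          exact hy1 b (by omega) j
      · intro b hb j
        rw [Function.update_of_ne (by omega)]
        exact hy2 b (by omega) j
  obtain ⟨y, hy1, _, hy3⟩ := key T le_rfl
  refine ⟨fun v => y (B v) (k v), fun v => hy1 _ (hB v) _, ?_⟩
  have h0 : Φ 0 (fun b _ => Y b) = ∑ u, ∑ v, w u v *
      (if B u = B v then 1 + 1 / ℓ (B u) - Y (B u) ^ 2 * ℓ (B u) / (ℓ (B u) - 1)
        else (1 + Y (B u)) * (1 - Y (B v))) := by
    simp only [Φ, term, hc, Nat.not_lt_zero, if_false]
  have hT : Φ T y = ∑ u, ∑ v, w u v * ((1 + y (B u) (k u)) * (1 - y (B v) (k v))) := by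
    simp only [Φ, term, hB, if_true, ite_self]
  rw [← h0, ← hT]
  exact hy3

end Pool.Agent.LibHelper36.Mac
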