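import Mathlib
import Pool.Agent.Lib_helper36.Mac.B8a

/-!
# Blocks B8b (independent random signs) and B8c (block processes give members of `cSet`)
-/

set_option autoImplicit false

namespace Pool.Agent.LibHelper36.Mac

open Finset Real
open Pool.Agent.LibHelper37.Mac

/-! ## Block B8b -/

theorem exists_noise_proof (J : Type) [Fintype J] [DecidableEq J] :
    ∃ (Ω : Type) (_ : Fintype Ω) (q : Ω → ℝ) (e : Ω → J → ℝ), (∀ ω, 0 ≤ q ω) ∧ ∑ ω, q ω = 1 ∧
      (∀ ω j, e ω j = 1 ∨ e ω j = -1) ∧ (∀ j, ∑ ω, q ω * e ω j = 0) ∧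
      ∀ j j', ∑ ω, q ω * (e ω j * e ω j') = if j = j' then 1 else 0 := by
  have hcard : (0 : ℝ) < Fintype.card (J → Bool) := by
    exact_mod_cast Fintype.card_pos
  have hinv : ∀ j : J, Function.Involutive
      (fun ω : J → Bool => Function.update ω j (!ω j)) := by
    intro j ω
    funext i
    by_cases h : i = j
    · subst h; simp
    · simp [h]
  let e : (J → Bool) → J → ℝ := fun ω j => if ω j then 1 else -1
  have hflip : ∀ (j : J) (ω : J → Bool), e (Function.update ω j (!ω j)) j = - e ω j := by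
    intro j ω
    simp only [e, Function.update_self]
    cases ω j <;> simp
  have hflip' : ∀ (j j' : J) (ω : J → Bool), j' ≠ j →
      e (Function.update ω j (!ω j)) j' = e ω j' := by
    intro j j' ω h
    simp [e, Function.update_of_ne h]
  have hsq : ∀ ω j, e ω j * e ω j = 1 := by
    intro ω j
    simp only [e]
    split_ifs <;> norm_num
  refine ⟨J → Bool, inferInstance, fun _ => 1 / Fintype.card (J → Bool), e, ?_, ?_, ?_, ?_, ?_⟩
  · intro _; positivity
  · rw [Finset.sum_const, Finset.card_univ, nsmul_eq_mul]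
    field_simp
  · intro ω j
    simp only [e]
    split_ifs <;> simp
  · intro j
    rw [← Finset.mul_sum]
    have h1 : ∑ ω, e ω j = - ∑ ω, e ω j := by
      conv_lhs => rw [← Equiv.sum_comp (hinv j).toPerm (fun ω => e ω j)]
      rw [← Finset.sum_neg_distrib]
      exact Finset.sum_congr rfl fun ω _ => hflip j ω
    have h2 : ∑ ω, e ω j = 0 := by linarith
    rw [h2, mul_zero]
  · intro j j'
    split_ifs with h
    · subst h
      rw [Finset.sum_congr rfl (g := fun _ => (1 : ℝ) / Fintype.card (J → Bool))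
        (fun ω _ => by rw [hsq, mul_one])]
      rw [Finset.sum_const, Finset.card_univ, nsmul_eq_mul]
      field_simp
    · rw [← Finset.mul_sum]
      have h1 : ∑ ω, e ω j * e ω j' = - ∑ ω, e ω j * e ω j' := by
        conv_lhs => rw [← Equiv.sum_comp (hinv j).toPerm (fun ω => e ω j * e ω j')]
        rw [← Finset.sum_neg_distrib]
        refine Finset.sum_congr rfl fun ω _ => ?_
        show e (Function.update ω j (!ω j)) j * e (Function.update ω j (!ω j)) j' = _
        rw [hflip j ω, hflip' j j' ω (Ne.symm h)]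
        ring
      have h2 : ∑ ω, e ω j * e ω j' = 0 := by linarith
      rw [h2, mul_zero]

/-! ## Levels of an acyclic digraph -/

theorem reach_of_isChain {V : Type} {R : V → V → Prop} :
    ∀ (l : List V) (v x : V), (v :: l).IsChain R → x ∈ v :: l → Relation.ReflTransGen R v x := by
  intro l
  induction l with
  | nil =>
    intro v x _ hx
    simp only [List.mem_singleton] at hx
    subst hx
    exact Relation.ReflTransGen.refl
  | cons a l ih =>
    intro v x h hx
    rw [List.isChain_cons_cons] at h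
    rcases List.mem_cons.1 hx with hx | hx
    · subst hx; exact Relation.ReflTransGen.refl
    · exact Relation.ReflTransGen.head h.1 (ih a x h.2 hx)

theorem exists_level {V : Type} (D : WDigraph V) (hac : D.Acyclic) {ν : ℕ}
    (hν : D.MaxPathOrder ν) :
    ∃ h : V → ℕ, (∀ v, h v < ν) ∧ ∀ u v, D.Arc u v → h u < h v := by
  let S : V → Set ℕ := fun v => {k | ∃ l, D.IsPath (v :: l) ∧ (v :: l).length = k}
  have hub : ∀ v, ∀ k ∈ S v, k ≤ ν := by
    rintro v k ⟨l, hl, hk⟩
    exact hν.2 ⟨v :: l, hl, hk⟩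
  have hbdd : ∀ v, BddAbove (S v) := fun v => ⟨ν, fun k hk => hub v k hk⟩
  have hne : ∀ v, (S v).Nonempty := by
    intro v
    refine ⟨1, [], ⟨by simp, by simp, by simp⟩, by simp⟩
  have hmem : ∀ v, sSup (S v) ∈ S v := fun v => Nat.sSup_mem (hne v) (hbdd v)
  have hpos : ∀ v, 1 ≤ sSup (S v) := by
    intro v
    obtain ⟨l, _, hk⟩ := hmem v
    rw [← hk]
    simp
  have hle : ∀ v, sSup (S v) ≤ ν := fun v => hub v _ (hmem v)
  refine ⟨fun v => ν - sSup (S v), fun v => ?_, fun u v huv => ?_⟩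
  · have := hpos v; have := hle v
    show ν - sSup (S v) < ν
    omega
  · obtain ⟨l, hl, hk⟩ := hmem v
    have hlt : sSup (S v) + 1 ≤ sSup (S u) := by
      refine le_csSup (hbdd u) ⟨v :: l, ⟨by simp, ?_, ?_⟩, ?_⟩
      · rw [List.nodup_cons]
        refine ⟨fun hmem' => ?_, hl.2.1⟩
        have h1 := reach_of_isChain l v u hl.2.2 hmem'
        exact hac u (Relation.TransGen.head' huv h1)
      · rw [List.isChain_cons_cons]
        exact ⟨huv, hl.2.2⟩
      · rw [← hk]; simp
    have := hle u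
    show ν - sSup (S u) < ν - sSup (S v)
    omega

/-! ## Decoding an index into (block, position) -/

theorem exists_block (ℓ : ℕ → ℕ) (T h : ℕ) (hh : h < ∑ b ∈ range T, ℓ b) :
    ∃ b < T, ∃ k < ℓ b, h = ∑ i ∈ range b, ℓ i + k := by
  induction T with
  | zero => simp at hh
  | succ T ih =>
    by_cases h1 : h < ∑ b ∈ range T, ℓ b
    · obtain ⟨b, hb, k, hk, he⟩ := ih h1
      exact ⟨b, by omega, k, hk, he⟩
    · rw [Finset.sum_range_succ] at hh
      exact ⟨T, by omega, h - ∑ b ∈ range T, ℓ b, by omega, by omega⟩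

theorem block_mono (ℓ : ℕ → ℕ) {b b' k k' : ℕ} (hk' : k' < ℓ b')
    (hlt : ∑ i ∈ range b, ℓ i + k < ∑ i ∈ range b', ℓ i + k') : b < b' ∨ (b = b' ∧ k < k') := by
  rcases lt_trichotomy b b' with h | h | h
  · exact Or.inl h
  · subst h
    exact Or.inr ⟨rfl, by omega⟩
  · exfalso
    have h1 : ∑ i ∈ range (b' + 1), ℓ i ≤ ∑ i ∈ range b, ℓ i :=
      Finset.sum_le_sum_of_subset (Finset.range_mono h)
    rw [Finset.sum_range_succ] at h1
    omega

/-! ## Shifted sums -/

theorem sum_shift (N b n : ℕ) (hN : b + n ≤ N) (f : ℕ → ℝ) :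
    ∑ x ∈ range N, (if b ≤ x ∧ x < b + n then f (x - b) else 0) = ∑ k ∈ range n, f k := by
  rw [← Finset.sum_filter]
  refine Finset.sum_nbij' (fun x => x - b) (fun k => b + k) ?_ ?_ ?_ ?_ ?_
  · intro x hx
    simp only [Finset.mem_filter, Finset.mem_range] at hx ⊢
    omega
  · intro k hk
    simp only [Finset.mem_filter, Finset.mem_range] at hk ⊢
    omega
  · intro x hx
    simp only [Finset.mem_filter, Finset.mem_range] at hx
    omega
  · intro k _
    omega
  · intro x _
    rfl

/-- the coefficient of the noise variable with index `x` in block `b` -/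
noncomputable def coef (n : ℕ) (f : ℕ → ℝ) (b x : ℕ) : ℝ :=
  if b ≤ x ∧ x < b + n then f (x - b) else 0

theorem sum_coef_mul (N n : ℕ) (f : ℕ → ℝ) (b b' : ℕ) (hbb : b ≤ b') (hN : b' + n ≤ N) :
    ∑ x ∈ range N, coef n f b x * coef n f b' x =
      ∑ k ∈ range (n - (b' - b)), f k * f (k + (b' - b)) := by
  rw [← sum_shift N b' (n - (b' - b)) (by omega) (fun k => f k * f (k + (b' - b)))]
  refine Finset.sum_congr rfl fun x _ => ?_
  unfold coef
  by_cases h : b' ≤ x ∧ x < b' + (n - (b' - b))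
  · have h1 : b ≤ x ∧ x < b + n := by omega
    have h2 : b' ≤ x ∧ x < b' + n := by omega
    rw [if_pos h, if_pos h1, if_pos h2]
    have h3 : x - b' + (b' - b) = x - b := by omega
    rw [h3, mul_comm]
  · rw [if_neg h]
    by_cases h1 : b ≤ x ∧ x < b + n
    · have h2 : ¬ (b' ≤ x ∧ x < b' + n) := by omega
      rw [if_neg h2, mul_zero]
    · rw [if_neg h1, zero_mul]

theorem sum_abs_coef (N n : ℕ) (f : ℕ → ℝ) (b : ℕ) (hN : b + n ≤ N) :
    ∑ x ∈ range N, |coef n f b x| = ∑ k ∈ range n, |f k| := by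
  rw [← sum_shift N b n hN (fun k => |f k|)]
  refine Finset.sum_congr rfl fun x _ => ?_
  unfold coef
  split_ifs <;> simp

/-! ## Cuts and sign vectors -/

theorem cut_signs {V : Type} [Fintype V] [DecidableEq V] (D : WDigraph V) (s : V → ℝ)
    (hs : ∀ v, s v = 1 ∨ s v = -1) :
    ∑ u, ∑ v, D.w u v * ((1 + s u) * (1 - s v)) ≤ 4 * D.mac := by
  classical
  set X : Finset V := univ.filter fun v => s v = 1 with hX
  have h1 : ∑ u, ∑ v, D.w u v * ((1 + s u) * (1 - s v)) = 4 * D.cut X := by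
    have h2 : D.cut X = ∑ u, ∑ v, (if u ∈ X then (if v ∈ X then 0 else D.w u v) else 0) := by
      unfold WDigraph.cut
      have h3 : ∀ u, ∑ v ∈ Xᶜ, D.w u v = ∑ v, (if v ∈ X then 0 else D.w u v) := by
        intro u
        rw [← Finset.sum_add_sum_compl X (fun v => if v ∈ X then 0 else D.w u v)]
        rw [Finset.sum_congr (s₁ := X) rfl (g := fun _ => (0 : ℝ)) (fun v hv => by simp [hv])]
        rw [Finset.sum_const_zero, zero_add]
        refine Finset.sum_congr rfl fun v hv => ?_
        rw [if_neg (Finset.mem_compl.1 hv)]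
      rw [Finset.sum_congr rfl fun u _ => h3 u]
      rw [← Finset.sum_filter_add_sum_filter_not univ (fun u => u ∈ X)]
      rw [Finset.sum_congr (s₁ := univ.filter fun u => ¬ u ∈ X) rfl (g := fun _ => (0 : ℝ))
        (fun u hu => by
          have : u ∉ X := (Finset.mem_filter.1 hu).2
          simp [this])]
      rw [Finset.sum_const_zero, add_zero]
      have h4 : univ.filter (fun u => u ∈ X) = X := by ext u; simp
      rw [h4]
      refine Finset.sum_congr rfl fun u hu => ?_
      simp [hu]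
    rw [h2, Finset.mul_sum]
    refine Finset.sum_congr rfl fun u _ => ?_
    rw [Finset.mul_sum]
    refine Finset.sum_congr rfl fun v _ => ?_
    have hmem : ∀ x, x ∈ X ↔ s x = 1 := by intro x; simp [hX]
    rcases hs u with hu | hu <;> rcases hs v with hv | hv
    · simp [hmem, hu, hv]
    · simp only [hmem, hu, hv]; norm_num; ring
    · simp only [hmem, hu, hv]; norm_num
    · simp only [hmem, hu, hv]; norm_num
  rw [h1]
  have h5 : D.cut X ≤ D.mac := Finset.le_sup' D.cut (Finset.mem_univ X)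
  linarith

/-! ## Block B8c -/

theorem mem_cSet_of_blocks_proof (T : ℕ) (ℓ : ℕ → ℕ) (a : ℕ → ℝ) (m n : ℕ) (c : ℕ → ℕ → ℝ)
    {η : ℝ} (hη : 0 ≤ η) (hℓ : ∀ b < T, 2 ≤ ℓ b)
    (hY : ∀ b < T, |a b| + (∑ ω ∈ range m, ∑ k ∈ range n, |c ω k|) / √(ℓ b) ≤ 1)
    (h1 : ∀ b < T, η ≤ 1 / ℓ b - (ℓ b * a b ^ 2 + autoc m n c 0) / (ℓ b - 1))
    (h2 : ∀ b b', b < b' → b' < T →
      a b * a b' + autoc m n c (b' - b) / (√(ℓ b) * √(ℓ b')) ≤ a b - a b' - η)
    (ν : ℕ) (hν : ν ≤ ∑ b ∈ range T, ℓ b) : 1 / 4 + η / 4 ∈ cSet ν := by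
  refine ⟨by positivity, ?_⟩
  intro V _ _ D hac hmax
  obtain ⟨h, hlt, hlev⟩ := exists_level D hac hmax
  -- decode
  have hdec : ∀ v, ∃ b < T, ∃ k < ℓ b, h v = ∑ i ∈ range b, ℓ i + k := fun v =>
    exists_block ℓ T (h v) ((hlt v).trans_le hν)
  choose B hB k hk hBk using hdec
  have harc : ∀ u v, D.Arc u v → B u < B v ∨ (B u = B v ∧ k u < k v) := by
    intro u v huv
    have := hlev u v huv
    rw [hBk u, hBk v] at this
    exact block_mono ℓ (hk v) this
  have hw0 : ∀ u v, D.w u v ≠ 0 → D.Arc u v := by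
    intro u v hne
    by_contra hna
    exact hne (D.w_eq_zero u v hna)
  -- noise
  obtain ⟨Ω, _, q, e, hq0, hq1, he, he1, he2⟩ := exists_noise_proof (Fin m × Fin (T + n))
  let C : ℕ → Fin m × Fin (T + n) → ℝ := fun b j => coef n (c j.1) b j.2
  let X : ℕ → Ω → ℝ := fun b ω => ∑ j, C b j * e ω j
  have hEX : ∀ b, ∑ ω, q ω * X b ω = 0 := by
    intro b
    simp only [X, Finset.mul_sum]
    rw [Finset.sum_comm]
    refine Finset.sum_eq_zero fun j _ => ?_
    have : ∑ ω, q ω * (C b j * e ω j) = C b j * ∑ ω, q ω * e ω j := by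
      rw [Finset.mul_sum]; exact Finset.sum_congr rfl fun _ _ => by ring
    rw [this, he1, mul_zero]
  have hEXX : ∀ b b', ∑ ω, q ω * (X b ω * X b' ω) = ∑ j, C b j * C b' j := by
    intro b b'
    have h3 : ∀ ω, q ω * (X b ω * X b' ω) =
        ∑ j, ∑ j', C b j * C b' j' * (q ω * (e ω j * e ω j')) := by
      intro ω
      simp only [X]
      rw [Finset.sum_mul_sum, Finset.mul_sum]
      refine Finset.sum_congr rfl fun j _ => ?_
      rw [Finset.mul_sum]
      exact Finset.sum_congr rfl fun j' _ => by ring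
    rw [Finset.sum_congr rfl fun ω _ => h3 ω, Finset.sum_comm]
    refine Finset.sum_congr rfl fun j _ => ?_
    rw [Finset.sum_comm]
    have h4 : ∀ j', ∑ ω, C b j * C b' j' * (q ω * (e ω j * e ω j')) =
        if j = j' then C b j * C b' j' else 0 := by
      intro j'
      rw [← Finset.mul_sum, he2]
      split_ifs <;> simp
    rw [Finset.sum_congr rfl fun j' _ => h4 j']
    simp
  have hCC : ∀ b b', b ≤ b' → b' < T → ∑ j, C b j * C b' j = autoc m n c (b' - b) := by
    intro b b' hbb hb'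
    simp only [C]
    rw [Fintype.sum_prod_type]
    simp only
    rw [Fin.sum_univ_eq_sum_range (fun i => ∑ x : Fin (T + n),
      coef n (c i) b x * coef n (c i) b' x) m]
    unfold autoc
    refine Finset.sum_congr rfl fun i _ => ?_
    rw [Fin.sum_univ_eq_sum_range (fun x => coef n (c i) b x * coef n (c i) b' x) (T + n)]
    exact sum_coef_mul (T + n) n (c i) b b' hbb (by omega)
  have hXabs : ∀ b < T, ∀ ω, |X b ω| ≤ ∑ i ∈ range m, ∑ x ∈ range n, |c i x| := by
    intro b hb ω
    have h3 : |X b ω| ≤ ∑ j, |C b j| := by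
      refine (Finset.abs_sum_le_sum_abs _ _).trans (Finset.sum_le_sum fun j _ => ?_)
      rw [abs_mul]
      rcases he ω j with h4 | h4 <;> simp [h4]
    refine h3.trans (le_of_eq ?_)
    simp only [C]
    rw [Fintype.sum_prod_type]
    simp only
    rw [Fin.sum_univ_eq_sum_range (fun i => ∑ x : Fin (T + n), |coef n (c i) b x|) m]
    refine Finset.sum_congr rfl fun i _ => ?_
    rw [Fin.sum_univ_eq_sum_range (fun x => |coef n (c i) b x|) (T + n)]
    exact sum_abs_coef (T + n) n (c i) b (by omega)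
  -- the rounded process
  let Y : Ω → ℕ → ℝ := fun ω b => a b + X b ω / √(ℓ b)
  have hsqrt : ∀ b < T, 0 < √(ℓ b : ℝ) := by
    intro b hb
    apply Real.sqrt_pos.2
    have := hℓ b hb
    exact_mod_cast (by omega : 0 < ℓ b)
  have hYle : ∀ ω, ∀ b < T, |Y ω b| ≤ 1 := by
    intro ω b hb
    refine le_trans ?_ (hY b hb)
    refine (abs_add_le _ _).trans ?_
    rw [abs_div, abs_of_pos (hsqrt b hb)]
    have := hXabs b hb ω
    have := div_le_div_of_nonneg_right this (hsqrt b hb).le
    linarith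
  -- for every outcome of the noise
  let F : Ω → V → V → ℝ := fun ω u v =>
    if B u = B v then 1 + 1 / ℓ (B u) - Y ω (B u) ^ 2 * ℓ (B u) / (ℓ (B u) - 1)
        else (1 + Y ω (B u)) * (1 - Y ω (B v))
  have hmain : ∀ ω, ∑ u, ∑ v, D.w u v * F ω u v ≤ 4 * D.mac := by
    intro ω
    obtain ⟨s, hs, hle⟩ := round_all_proof D.w D.w_nonneg T ℓ hℓ B k hB hk
      (fun u v hne hBB => by
        rcases harc u v (hw0 u v hne) with h3 | h3
        · omega
        · exact h3.2.ne) (Y ω) (hYle ω)
    exact hle.trans (cut_signs D s hs)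
  -- averaging
  have havg : ∀ u v, D.w u v ≠ 0 → 1 + η ≤ ∑ ω, q ω * F ω u v := by
    intro u v hne
    have hconst : ∀ C : ℝ, ∑ ω, q ω * C = C := by
      intro C
      rw [← Finset.sum_mul, hq1, one_mul]
    rcases harc u v (hw0 u v hne) with hlt' | ⟨heq, _⟩
    · have hne' : B u ≠ B v := hlt'.ne
      simp only [F, if_neg hne']
      have h3 : ∑ ω, q ω * ((1 + Y ω (B u)) * (1 - Y ω (B v))) =
          (1 + a (B u)) * (1 - a (B v)) - autoc m n c (B v - B u) /
            (√(ℓ (B u)) * √(ℓ (B v))) := by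
        have hsu := (hsqrt _ (hB u)).ne'
        have hsv := (hsqrt _ (hB v)).ne'
        have h4 : ∀ ω, q ω * ((1 + Y ω (B u)) * (1 - Y ω (B v))) =
            q ω * ((1 + a (B u)) * (1 - a (B v))) +
              (1 - a (B v)) / √(ℓ (B u)) * (q ω * X (B u) ω) -
              (1 + a (B u)) / √(ℓ (B v)) * (q ω * X (B v) ω) -
              1 / (√(ℓ (B u)) * √(ℓ (B v))) * (q ω * (X (B u) ω * X (B v) ω)) := by
          intro ω
          simp only [Y]
          field_simp
          ring
        rw [Finset.sum_congr rfl fun ω _ => h4 ω, Finset.sum_sub_distrib,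
          Finset.sum_sub_distrib, Finset.sum_add_distrib, hconst, ← Finset.mul_sum,
          ← Finset.mul_sum, ← Finset.mul_sum, hEX, hEX, hEXX, hCC _ _ hlt'.le (hB v)]
        ring
      rw [h3]
      have := h2 _ _ hlt' (hB v)
      linarith [this]
    · simp only [F, if_pos heq]
      have hℓu := hℓ _ (hB u)
      have hℓR : (2 : ℝ) ≤ ℓ (B u) := by exact_mod_cast hℓu
      have h3 : ∑ ω, q ω * (1 + 1 / (ℓ (B u) : ℝ) -
            Y ω (B u) ^ 2 * ℓ (B u) / ((ℓ (B u) : ℝ) - 1)) =
          1 + 1 / (ℓ (B u) : ℝ) -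
            (ℓ (B u) * a (B u) ^ 2 + autoc m n c 0) / ((ℓ (B u) : ℝ) - 1) := by
        have hsu := (hsqrt _ (hB u)).ne'
        have hs2 : √(ℓ (B u) : ℝ) ^ 2 = ℓ (B u) := Real.sq_sqrt (by positivity)
        have hℓ1 : (ℓ (B u) : ℝ) - 1 ≠ 0 := by linarith
        have h4 : ∀ ω, q ω * (1 + 1 / (ℓ (B u) : ℝ) -
            Y ω (B u) ^ 2 * ℓ (B u) / ((ℓ (B u) : ℝ) - 1)) =
            q ω * (1 + 1 / (ℓ (B u) : ℝ) - a (B u) ^ 2 * ℓ (B u) / ((ℓ (B u) : ℝ) - 1)) -
              2 * a (B u) * √(ℓ (B u)) / ((ℓ (B u) : ℝ) - 1) * (q ω * X (B u) ω) -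
              1 / ((ℓ (B u) : ℝ) - 1) * (q ω * (X (B u) ω * X (B u) ω)) := by
          intro ω
          have h5 : Y ω (B u) ^ 2 * ℓ (B u) =
              a (B u) ^ 2 * ℓ (B u) + 2 * a (B u) * √(ℓ (B u)) * X (B u) ω +
                X (B u) ω * X (B u) ω := by
            simp only [Y]
            have : (a (B u) + X (B u) ω / √(ℓ (B u))) ^ 2 * (ℓ (B u) : ℝ) =
                (a (B u) + X (B u) ω / √(ℓ (B u))) ^ 2 * √(ℓ (B u) : ℝ) ^ 2 := by rw [hs2]
            rw [this]
            have h6 : (a (B u) + X (B u) ω / √(ℓ (B u))) ^ 2 * √(ℓ (B u) : ℝ) ^ 2 =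
                (a (B u) * √(ℓ (B u)) + X (B u) ω) ^ 2 := by
              field_simp
            rw [h6]
            have h7 : (a (B u) * √(ℓ (B u)) + X (B u) ω) ^ 2 =
                a (B u) ^ 2 * √(ℓ (B u) : ℝ) ^ 2 + 2 * a (B u) * √(ℓ (B u)) * X (B u) ω +
                  X (B u) ω * X (B u) ω := by ring
            rw [h7, hs2]
          rw [h5]
          ring
        rw [Finset.sum_congr rfl fun ω _ => h4 ω, Finset.sum_sub_distrib,
          Finset.sum_sub_distrib, hconst, ← Finset.mul_sum, ← Finset.mul_sum, hEX, hEXX,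
          hCC _ _ le_rfl (hB u), Nat.sub_self]
        ring
      rw [h3]
      have := h1 _ (hB u)
      linarith [this]
  have hfin : (1 + η) * D.total ≤ 4 * D.mac := by
    calc (1 + η) * D.total = ∑ u, ∑ v, D.w u v * (1 + η) := by
          unfold WDigraph.total
          rw [Finset.mul_sum]
          refine Finset.sum_congr rfl fun u _ => ?_
          rw [Finset.mul_sum]
          exact Finset.sum_congr rfl fun v _ => by ring
      _ ≤ ∑ u, ∑ v, D.w u v * ∑ ω, q ω * F ω u v := by
          refine Finset.sum_le_sum fun u _ => Finset.sum_le_sum fun v _ => ?_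
          by_cases hne : D.w u v = 0
          · simp [hne]
          · exact mul_le_mul_of_nonneg_left (havg u v hne) (D.w_nonneg u v)
      _ = ∑ ω, q ω * ∑ u, ∑ v, D.w u v * F ω u v := by
          simp only [Finset.mul_sum]
          rw [Finset.sum_congr rfl fun u _ => Finset.sum_comm, Finset.sum_comm]
          refine Finset.sum_congr rfl fun ω _ => Finset.sum_congr rfl fun u _ =>
            Finset.sum_congr rfl fun v _ => by ring
      _ ≤ ∑ ω, q ω * (4 * D.mac) :=
          Finset.sum_le_sum fun ω _ => mul_le_mul_of_nonneg_left (hmain ω) (hq0 ω)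
      _ = 4 * D.mac := by rw [← Finset.sum_mul, hq1, one_mul]
  linarith

end Pool.Agent.LibHelper36.Mac
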